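import Pool.Agent.H49.KT.Targets

/-! Module GR: greedy extensions. -/

set_option autoImplicit false

namespace Pool.Agent.H48.KT

open Pool.Agent.H49.KT

theorem two_cnt (U : BM) (m : ℕ) (P : List Bool) :
    2 * cnt U m (P ++ [pick U m P]) ≤ cnt U m P := by
  have h1 : cnt U m (P ++ [true]) + cnt U m (P ++ [false]) ≤ cnt U m P := by
    unfold cnt cntN
    rw [← Finset.card_union_of_disjoint]
    · apply Finset.card_le_card
      intro i hi
      rw [Finset.mem_union, Finset.mem_filter, Finset.mem_filter] at hi
      rw [Finset.mem_filter]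
      rcases hi with ⟨h, h'⟩ | ⟨h, h'⟩
      · exact ⟨h, (List.prefix_append P [true]).trans h'⟩
      · exact ⟨h, (List.prefix_append P [false]).trans h'⟩
    · rw [Finset.disjoint_left]
      intro i hi hi'
      rw [Finset.mem_filter] at hi hi'
      have h2 := List.prefix_of_prefix_length_le hi.2 hi'.2 (by simp)
      have h3 := h2.eq_of_length (by simp)
      simp at h3
  by_cases h : cnt U m (P ++ [true]) ≤ cnt U m (P ++ [false])
  · have h2 : pick U m P = true := by
      unfold pick
      exact decide_eq_true h
    rw [h2]
    omega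
  · have h2 : pick U m P = false := by
      unfold pick
      exact decide_eq_false h
    rw [h2]
    omega

theorem pf_GR : T_GR := by
  intro U m r
  induction r with
  | zero =>
    intro P
    exact ⟨List.prefix_refl P, rfl, by simp [gr]⟩
  | succ r ih =>
    intro P
    obtain ⟨h1, h2, h3⟩ := ih (P ++ [pick U m P])
    have h4 := two_cnt U m P
    show P <+: gr U m r (P ++ [pick U m P]) ∧
      (gr U m r (P ++ [pick U m P])).length = P.length + (r + 1) ∧
      2 ^ (r + 1) * cnt U m (gr U m r (P ++ [pick U m P])) ≤ cnt U m P
    refine ⟨(List.prefix_append P _).trans h1, ?_, ?_⟩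
    · rw [h2, List.length_append, List.length_singleton]
      omega
    · rw [pow_succ]
      calc 2 ^ r * 2 * cnt U m (gr U m r (P ++ [pick U m P]))
          = 2 * (2 ^ r * cnt U m (gr U m r (P ++ [pick U m P]))) := by ring
        _ ≤ 2 * cnt U m (P ++ [pick U m P]) := Nat.mul_le_mul_left 2 h3
        _ ≤ cnt U m P := h4

end Pool.Agent.H48.KT
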