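import Pool.Agent.H49.KT.Targets

/-! Module WFS: the special program is well formed. -/

set_option autoImplicit false

namespace Pool.Agent.H48.KT

open Pool.Agent.H49.KT Turing

variable {U : BM}

theorem wf_tr (q : TM2.Stmt U.tm.Γ U.tm.Λ U.tm.σ) :
    WF (tr (U := U) q) ∧ ∀ x : Nm, Free (K := KK U) (.inr x) (tr q) := by
  induction q with
  | push k f q ih => exact ⟨⟨trivial, ih.1⟩, fun x => ⟨by simp [Free], ih.2 x⟩⟩
  | peek k f q ih => exact ⟨⟨trivial, ih.1⟩, fun x => ⟨by simp [Free], ih.2 x⟩⟩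
  | pop k f q ih => exact ⟨⟨trivial, ih.1⟩, fun x => ⟨by simp [Free], ih.2 x⟩⟩
  | load f q ih => exact ⟨⟨trivial, ih.1⟩, fun x => ⟨trivial, ih.2 x⟩⟩
  | branch p q₁ q₂ ih₁ ih₂ => exact ⟨⟨ih₁.1, ih₂.1⟩, fun x => ⟨ih₁.2 x, ih₂.2 x⟩⟩
  | goto f => exact ⟨trivial, fun x => trivial⟩
  | halt => exact ⟨trivial, fun x => trivial⟩

theorem wf_disp (ls : List U.tm.Λ) :
    WF (disp (U := U) ls) ∧ ∀ x : Nm, Free (K := KK U) (.inr x) (disp ls) := by
  induction ls with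
  | nil => exact ⟨trivial, fun x => trivial⟩
  | cons l ls ih =>
    exact ⟨⟨(wf_tr (U.tm.m l)).1, ih.1⟩, fun x => ⟨(wf_tr (U.tm.m l)).2 x, ih.2 x⟩⟩

theorem wf_clearL (ks : List U.tm.K) :
    WF (clearL (U := U) ks) ∧ ∀ x : Nm, Free (K := KK U) (.inr x) (clearL ks) := by
  induction ks with
  | nil => exact ⟨trivial, fun x => trivial⟩
  | cons k ks ih =>
    exact ⟨⟨⟨trivial, trivial⟩, ih.1⟩, fun x => ⟨⟨by simp, trivial⟩, ih.2 x⟩⟩

theorem wf_stepU : WF (stepU (U := U)) := (wf_disp _).1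

theorem free_stepU (x : Nm) : Free (K := KK U) (.inr x) (stepU (U := U)) := (wf_disp _).2 x

theorem wf_clearU : WF (clearU (U := U)) := ⟨(wf_clearL _).1, trivial⟩

theorem free_clearU (x : Nm) : Free (K := KK U) (.inr x) (clearU (U := U)) :=
  ⟨(wf_clearL _).2 x, trivial⟩

theorem pf_WFS : T_WFS := by
  intro U
  simp [WF, Free, _root_.Pool.Agent.H49.KT.special, _root_.Pool.Agent.H49.KT.parse,
    _root_.Pool.Agent.H49.KT.prep, _root_.Pool.Agent.H49.KT.rnds, _root_.Pool.Agent.H49.KT.mkAll,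
    _root_.Pool.Agent.H49.KT.mainL, _root_.Pool.Agent.H49.KT.decision,
    _root_.Pool.Agent.H49.KT.final, _root_.Pool.Agent.H49.KT.pbody, _root_.Pool.Agent.H49.KT.round,
    _root_.Pool.Agent.H49.KT.body, _root_.Pool.Agent.H49.KT.choose, _root_.Pool.Agent.H49.KT.mkClk,
    _root_.Pool.Agent.H49.KT.loadIn, _root_.Pool.Agent.H49.KT.runClk, _root_.Pool.Agent.H49.KT.cmp,
    _root_.Pool.Agent.H49.KT.incD, _root_.Pool.Agent.H49.KT.mv, _root_.Pool.Agent.H49.KT.mv2,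
    _root_.Pool.Agent.H49.KT.clr, _root_.Pool.Agent.H49.KT.lp, _root_.Pool.Agent.H49.KT.dbl,
    _root_.Pool.Agent.H49.KT.pow, _root_.Pool.Agent.H49.KT.pushc, _root_.Pool.Agent.H49.KT.pusha,
    _root_.Pool.Agent.H49.KT.pushb, _root_.Pool.Agent.H49.KT.popn, _root_.Pool.Agent.H49.KT.popk,
    _root_.Pool.Agent.H49.KT.pushk, _root_.Pool.Agent.H49.KT.skip, _root_.Pool.Agent.H49.KT.start,
    wf_stepU, free_stepU,     wf_clearU, free_clearU]

end Pool.Agent.H48.KT
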